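import Pool.Agent.E8helper91.Samp.Final

/-!
# An efficient exact uniform sampler for simplicial spanning trees

The definitions used by the statement are in `Pool/Agent/E8helper91/Samp/Spec.lean` (complexes,
spanning trees, output probabilities), `Pool/Agent/H591R2/Defs.lean` (coin-tossing machines and
their expected running time) and `Pool/Agent/NPC/Defs.lean` (codes of lists by bit strings).
-/

set_option autoImplicit false

namespace Pool.Agent.Results.MP_d8fb5e_lc.ExactSamplerH91

open Pool.Agent.E8helper91.Samp Pool.Agent.H591R2 Pool.Agent.NPC

/-- There is a coin-tossing machine `M` which, given the list `F` of all faces of any finite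
simplicial complex `Δ` of any dimension `d ≥ 1`, outputs each spanning tree of `Δ` with
probability exactly `1` over the number of spanning trees, in expected time polynomial in the
length of the input, and polynomial in the number of faces if the vertices are named by numbers
less than the number of faces. -/
theorem result : ∃ (M : CoinMachine) (p : Polynomial ℕ),
    ∀ (d : ℕ) (Δ : PreAbstractSimplicialComplex ℕ) (F : List (List ℕ)),
      1 ≤ d → HasDim Δ d → ListsFaces F Δ →
      ({Υ | IsTree Δ d Υ}.Finite ∧ {Υ | IsTree Δ d Υ}.Nonempty) ∧
      (∀ Υ, IsTree Δ d Υ → outputProb M (bits F) {y | ∃ L, ListsFaces L Υ ∧ y = bits L} =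
        1 / ({Υ | IsTree Δ d Υ}.ncard : ENNReal)) ∧
      M.expectedTime (bits F) ≤ (p.eval (bits F).length : ℕ) ∧
      ((∀ s ∈ Δ, ∀ v ∈ s, v < F.length) → M.expectedTime (bits F) ≤ (p.eval F.length : ℕ)) :=
  exact_sampler

end Pool.Agent.Results.MP_d8fb5e_lc.ExactSamplerH91
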